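import Pool.Agent.Helper92.Orb.Packets
import Pool.Agent.Helper16.Abund.Basic
import Pool.Agent.Helper16.Abund.Trace2

open scoped Manifold ContDiff ENNReal Topology
open MeasureTheory Metric

namespace Pool.Agent.Helper79.Orb

open Pool.Agent.Helper16.Abund Pool.Agent.Helper92.Orb

universe u v

section rank

variable {n : ℕ} {Γ : Type v} {M : Type u} [Group Γ] [MulAction Γ M] [TopologicalSpace M]
    [ChartedSpace (Fin n → ℂ) M] {H : Subgroup Γ}

/-- the overlap relation -/
def Rel (χ : OpenPartialHomeomorph M (Fin n → ℂ)) (B : Set (Fin n → ℂ)) (T : Set (Γ ⧸ H))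
    (θ : (Γ ⧸ H) → (Fin n → ℂ) → ℝ) (c : Γ ⧸ H) (z : Fin n → ℂ) (γ : Γ) : Prop :=
  γ • c ∈ T ∧ γ • χ.symm z ∈ χ.source ∧ χ (γ • χ.symm z) ∈ B ∧
    θ (γ • c) (χ (γ • χ.symm z)) < θ c z

open Classical in
/-- the rank function -/
noncomputable def rk (χ : OpenPartialHomeomorph M (Fin n → ℂ)) (B : Set (Fin n → ℂ))
    (T : Set (Γ ⧸ H)) (θ : (Γ ⧸ H) → (Fin n → ℂ) → ℝ) (S : Finset Γ) (c : Γ ⧸ H)
    (z : Fin n → ℂ) : ℕ :=
  (S.filter fun γ => Rel χ B T θ c z γ).card

omit [ChartedSpace (Fin n → ℂ) M] in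
theorem rk_lt {χ : OpenPartialHomeomorph M (Fin n → ℂ)} {B : Set (Fin n → ℂ)}
    {T : Set (Γ ⧸ H)} {θ : (Γ ⧸ H) → (Fin n → ℂ) → ℝ} {S : Finset Γ} {U : Set M}
    (hBt : B ⊆ χ.target) (hBU : ∀ z ∈ B, χ.symm z ∈ U)
    (hS : ∀ γ : Γ, (∃ y ∈ U, γ • y ∈ U) → γ ∈ S)
    {c c' : Γ ⧸ H} (hc : c ∈ T) {z w : Fin n → ℂ} (hz : z ∈ B) (hw : w ∈ B)
    {g : Γ} (hg : g • c = c') (hgz : g • χ.symm z = χ.symm w) (hlt : θ c z < θ c' w) :
    rk χ B T θ S c z < rk χ B T θ S c' w := by
  classical
  unfold rk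
  have hg' : g⁻¹ • c' = c := by rw [← hg, inv_smul_smul]
  have hgz' : g⁻¹ • χ.symm w = χ.symm z := by rw [← hgz, inv_smul_smul]
  have hzt := χ.right_inv (hBt hz)
  have hwt := χ.right_inv (hBt hw)
  have hmem : ∀ γ, Rel χ B T θ c z γ → Rel χ B T θ c' w (γ * g⁻¹) ∧ γ * g⁻¹ ∈ S := by
    intro γ h
    obtain ⟨h1, h2, h3, h4⟩ := h
    have e1 : (γ * g⁻¹) • c' = γ • c := by rw [mul_smul, hg']
    have e2 : (γ * g⁻¹) • χ.symm w = γ • χ.symm z := by rw [mul_smul, hgz']
    refine ⟨⟨?_, ?_, ?_, ?_⟩, ?_⟩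
    · rw [e1]; exact h1
    · rw [e2]; exact h2
    · rw [e2]; exact h3
    · rw [e1, e2]; exact h4.trans hlt
    · apply hS
      refine ⟨χ.symm w, hBU w hw, ?_⟩
      rw [e2, ← χ.left_inv h2]
      exact hBU _ h3
  have hinj : Function.Injective fun γ : Γ => γ * g⁻¹ := mul_left_injective _
  rw [← Finset.card_image_of_injective _ hinj]
  apply Finset.card_lt_card
  rw [Finset.ssubset_iff_of_subset]
  · refine ⟨g⁻¹, ?_, ?_⟩
    · rw [Finset.mem_filter]
      have e1 : χ.symm z ∈ χ.source := χ.map_target (hBt hz)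
      refine ⟨hS _ ⟨χ.symm w, hBU w hw, ?_⟩, ?_, ?_, ?_, ?_⟩
      · rw [hgz']; exact hBU z hz
      · rw [hg']; exact hc
      · rw [hgz']; exact e1
      · rw [hgz', hzt]; exact hz
      · rw [hg', hgz', hzt]; exact hlt
    · intro hmem'
      rw [Finset.mem_image] at hmem'
      obtain ⟨γ, hγ, he⟩ := hmem'
      rw [Finset.mem_filter] at hγ
      have h1 : γ = 1 := by
        have he' : γ * g⁻¹ = 1 * g⁻¹ := by rw [one_mul]; exact he
        exact mul_right_cancel he'
      obtain ⟨-, -, -, -, h4⟩ := hγ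
      rw [h1, one_smul, one_smul, hzt] at h4
      exact lt_irrefl _ h4
  · intro γ hγ
    rw [Finset.mem_image] at hγ
    obtain ⟨γ', hγ', rfl⟩ := hγ
    rw [Finset.mem_filter] at hγ' ⊢
    exact ⟨(hmem γ' hγ'.2).2, (hmem γ' hγ'.2).1⟩

omit [ChartedSpace (Fin n → ℂ) M] in
theorem measurableSet_rk {χ : OpenPartialHomeomorph M (Fin n → ℂ)} {B : Set (Fin n → ℂ)}
    {T : Set (Γ ⧸ H)} {θ : (Γ ⧸ H) → (Fin n → ℂ) → ℝ} (S : Finset Γ)
    (hB : IsOpen B) (hBt : B ⊆ χ.target) (hcont : ∀ γ : Γ, Continuous fun x : M => γ • x)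
    (hθ : ∀ c, Measurable (θ c)) (c : Γ ⧸ H) (k : ℕ) :
    MeasurableSet {z | z ∈ B ∧ rk χ B T θ S c z = k} := by
  classical
  have hrel : ∀ γ, MeasurableSet {z | z ∈ B ∧ Rel χ B T θ c z γ} := by
    intro γ
    by_cases hT : γ • c ∈ T
    swap
    · have : {z | z ∈ B ∧ Rel χ B T θ c z γ} = ∅ := by
        ext z
        simp only [Set.mem_ofPred_eq, Set.mem_empty_iff_false, iff_false]
        rintro ⟨-, h, -⟩
        exact hT h
      rw [this]; exact MeasurableSet.empty
    have hc1 : ContinuousOn (fun z => γ • χ.symm z) B :=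
      (hcont γ).comp_continuousOn (χ.continuousOn_symm.mono hBt)
    set V : Set (Fin n → ℂ) := B ∩ (fun z => γ • χ.symm z) ⁻¹' (χ.source ∩ χ ⁻¹' B) with hV
    have hVo : IsOpen V := hc1.isOpen_inter_preimage hB (χ.isOpen_inter_preimage hB)
    have hc2 : ContinuousOn (fun z => χ (γ • χ.symm z)) V :=
      χ.continuousOn.comp (hc1.mono Set.inter_subset_left) fun z hz => hz.2.1
    have hm : Measurable (V.piecewise (fun z => χ (γ • χ.symm z)) id) :=
      hc2.measurable_piecewise continuousOn_id hVo.measurableSet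
    have : {z | z ∈ B ∧ Rel χ B T θ c z γ} =
        V ∩ {z | θ (γ • c) (V.piecewise (fun z => χ (γ • χ.symm z)) id z) < θ c z} := by
      ext z
      constructor
      · rintro ⟨h0, h1, h2, h3, h4⟩
        have hzV : z ∈ V := ⟨h0, h2, h3⟩
        refine ⟨hzV, ?_⟩
        rw [Set.mem_ofPred_eq, Set.piecewise_eq_of_mem _ _ _ hzV]
        exact h4
      · rintro ⟨hzV, h4⟩
        rw [Set.mem_ofPred_eq, Set.piecewise_eq_of_mem _ _ _ hzV] at h4
        exact ⟨hzV.1, hT, hzV.2.1, hzV.2.2, h4⟩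
    rw [this]
    exact hVo.measurableSet.inter (measurableSet_lt ((hθ _).comp hm) (hθ c))
  have hsum : Measurable fun z => ∑ γ ∈ S, Set.indicator {z | z ∈ B ∧ Rel χ B T θ c z γ} (1 : (Fin n → ℂ) → ℕ) z :=
    Finset.measurable_fun_sum _ fun γ _ => measurable_one.indicator (hrel γ)
  have : {z | z ∈ B ∧ rk χ B T θ S c z = k} = B ∩ (fun z => ∑ γ ∈ S,
      Set.indicator {z | z ∈ B ∧ Rel χ B T θ c z γ} (1 : (Fin n → ℂ) → ℕ) z) ⁻¹' {k} := by
    ext z
    simp only [Set.mem_ofPred_eq, Set.mem_inter_iff, Set.mem_preimage, Set.mem_singleton_iff]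
    apply and_congr_right
    intro hz
    have : rk χ B T θ S c z = ∑ γ ∈ S,
      Set.indicator {z | z ∈ B ∧ Rel χ B T θ c z γ} (1 : (Fin n → ℂ) → ℕ) z := by
      unfold rk
      rw [Finset.card_filter]
      apply Finset.sum_congr rfl
      intro γ _
      by_cases h : Rel χ B T θ c z γ
      · rw [if_pos h, Set.indicator_of_mem (show z ∈ {z | z ∈ B ∧ Rel χ B T θ c z γ} from ⟨hz, h⟩)]
        rfl
      · rw [if_neg h, Set.indicator_of_notMem]
        exact fun h' => h h'.2
    rw [this]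
  rw [this]
  exact hB.measurableSet.inter (hsum (measurableSet_singleton k))

end rank


theorem exists_theta {n : ℕ} {I : Type v} (T : Finset I) :
    ∃ θ : I → (Fin n → ℂ) → ℝ, (∀ c, Measurable (θ c)) ∧
      ∀ c ∈ T, ∀ c' ∈ T, ∀ z w, θ c z = θ c' w → c = c' ∧ z = w := by
  obtain ⟨idx, hidx⟩ := Set.countable_iff_exists_injOn.1 T.countable_toSet
  have he := MeasureTheory.measurableEmbedding_embeddingReal (ℕ × (Fin n → ℂ))
  refine ⟨fun c z => MeasureTheory.embeddingReal (ℕ × (Fin n → ℂ)) (idx c, z), ?_, ?_⟩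
  · intro c
    exact he.measurable.comp (measurable_const.prodMk measurable_id)
  · intro c hc c' hc' z w h
    have h1 := he.injective h
    rw [Prod.mk.injEq] at h1
    exact ⟨hidx hc hc' h1.1, h1.2⟩

theorem stmtCosetLqOfMassMod : StmtCosetLqOfMassMod.{u,v} := by
  intro n m hm Γ M _ _ _ _ _ hG H η hη hM x₀
  classical
  set χ := chartAt (Fin n → ℂ) x₀ with hχ
  obtain ⟨C, hC⟩ := hM
  obtain ⟨U₀, hU₀, hfin₀⟩ := hG.proper x₀
  obtain ⟨U, hUU₀, hUo, hxU⟩ := mem_nhds_iff.1 hU₀
  have hfin : {γ : Γ | ∃ y ∈ U, γ • y ∈ U}.Finite :=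
    hfin₀.subset fun γ ⟨y, hy, hy'⟩ => ⟨y, hUU₀ hy, hUU₀ hy'⟩
  have hx₀s : x₀ ∈ χ.source := mem_chart_source _ x₀
  have hopen : IsOpen (χ.target ∩ χ.symm ⁻¹' U) := χ.isOpen_inter_preimage_symm hUo
  have hmem : χ x₀ ∈ χ.target ∩ χ.symm ⁻¹' U := by
    refine ⟨χ.map_source hx₀s, ?_⟩
    rw [Set.mem_preimage, χ.left_inv hx₀s]
    exact hxU
  obtain ⟨r, hr, hsub⟩ := Metric.isOpen_iff.1 hopen _ hmem
  set B : Set (Fin n → ℂ) := ball (χ x₀) r with hB
  have hBo : IsOpen B := isOpen_ball
  have hBt : B ⊆ χ.target := fun z hz => (hsub hz).1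
  have hBU : ∀ z ∈ B, χ.symm z ∈ U := fun z hz => (hsub hz).2
  have hcont : ∀ γ : Γ, Continuous fun x : M => γ • x := fun γ => (hG.holo γ).continuous
  let S : Finset Γ := hfin.toFinset
  have hS : ∀ γ : Γ, (∃ y ∈ U, γ • y ∈ U) → γ ∈ S := fun γ h => hfin.mem_toFinset.2 h
  have hψ : ∀ c : Γ ⧸ H, MDifferentiableOn 𝓘(ℂ, Fin n → ℂ) 𝓘(ℂ, Fin n → ℂ)
      (fun z => c.out⁻¹ • χ.symm z) χ.target := by
    intro c z hz
    exact ((hG.holo c.out⁻¹ (χ.symm z)).comp z ((mdiff_chart_symm x₀).mdifferentiableAt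
      (χ.open_target.mem_nhds hz))).mdifferentiableWithinAt
  let f : (Γ ⧸ H) → (Fin n → ℂ) → ℂ := fun c z =>
    η (c.out⁻¹ • χ.symm z) * jac n (fun z => c.out⁻¹ • χ.symm z) z ^ m
  have hf : ∀ c, DifferentiableOn ℂ (f c) χ.target := fun c => hη.1 _ _ χ.open_target (hψ c)
  have hft : ∀ c, ∀ z ∈ B, translate n m η c.out (χ.symm z) * jac n χ.symm z ^ m = f c z := by
    intro c z hz
    have h1 : jac n (fun z => c.out⁻¹ • χ.symm z) z =
        jac n (fun y : M => c.out⁻¹ • y) (χ.symm z) * jac n χ.symm z :=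
      jac_comp (g := fun y : M => c.out⁻¹ • y) (f := χ.symm) (hG.holo c.out⁻¹ (χ.symm z))
        ((mdiff_chart_symm x₀).mdifferentiableAt (χ.open_target.mem_nhds (hBt hz)))
    simp only [Pool.Agent.Helper92.Orb.translate, f]
    rw [h1, mul_pow, mul_assoc]
  have hq : (0 : ℝ) ≤ 2 / (m : ℝ) := by positivity
  have hq0 : (0 : ℝ) < 2 / (m : ℝ) := by
    have : (0 : ℝ) < m := by exact_mod_cast hm
    positivity
  let F : (Γ ⧸ H) → (Fin n → ℂ) → ℝ≥0∞ := fun c z => ENNReal.ofReal (‖f c z‖ ^ (2 / (m : ℝ)))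
  have hFc : ∀ c, ContinuousOn (fun z => ‖f c z‖ ^ (2 / (m : ℝ))) B := by
    intro c
    apply ContinuousOn.rpow_const
    · exact ((hf c).continuousOn.mono hBt).norm
    · intro z _
      exact Or.inr hq
  have hFc' : ∀ c, ContinuousOn (F c) B := fun c =>
    ENNReal.continuous_ofReal.comp_continuousOn (hFc c)
  have hmeas : ∀ c, AEMeasurable (F c) (volume.restrict B) := fun c =>
    (hFc' c).aemeasurable hBo.measurableSet
  -- the main claim
  have claim : ∀ T : Finset (Γ ⧸ H), ∑ c ∈ T, ∫⁻ z in B, F c z ≤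
      ((S.card + 1 : ℕ) : ℝ≥0∞) * ENNReal.ofReal C := by
    intro T
    obtain ⟨θ, hθm, hθi⟩ := exists_theta (n := n) T
    let R : (Γ ⧸ H) → (Fin n → ℂ) → ℕ := fun c z => rk χ B (T : Set (Γ ⧸ H)) θ S c z
    have hRle : ∀ c z, R c z ≤ S.card := fun c z => Finset.card_filter_le _ _
    let P : ℕ → (Γ ⧸ H) → Set (Fin n → ℂ) := fun k c => {z | z ∈ B ∧ R c z = k}
    have hPm : ∀ k c, MeasurableSet (P k c) := fun k c =>
      measurableSet_rk S hBo hBt hcont hθm c k
    have hsplit : ∀ c, ∫⁻ z in B, F c z = ∑ k ∈ Finset.range (S.card + 1), ∫⁻ z in P k c, F c z := by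
      intro c
      rw [← lintegral_biUnion_finset]
      · congr 1
        congr 1
        ext z
        simp only [Set.mem_iUnion, Finset.mem_range, exists_prop]
        constructor
        · intro hz
          exact ⟨R c z, Nat.lt_succ_of_le (hRle c z), hz, rfl⟩
        · rintro ⟨k, -, hz⟩
          exact hz.1
      · intro k _ l _ hkl
        rw [Function.onFun, Set.disjoint_left]
        intro z h1 h2
        exact hkl (h1.2.symm.trans h2.2)
      · intro k _
        exact hPm k c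
    calc ∑ c ∈ T, ∫⁻ z in B, F c z
        = ∑ c ∈ T, ∑ k ∈ Finset.range (S.card + 1), ∫⁻ z in P k c, F c z :=
          Finset.sum_congr rfl fun c _ => hsplit c
      _ = ∑ k ∈ Finset.range (S.card + 1), ∑ c ∈ T, ∫⁻ z in P k c, F c z := Finset.sum_comm
      _ ≤ ∑ k ∈ Finset.range (S.card + 1), ENNReal.ofReal C := by
          apply Finset.sum_le_sum
          intro k _
          let e := T.equivFin
          have hsum : ∑ c ∈ T, ∫⁻ z in P k c, F c z =
              ∑ i : Fin T.card, ∫⁻ z in P k (e.symm i).1, F (e.symm i).1 z := by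
            rw [← Finset.sum_coe_sort T fun c => ∫⁻ z in P k c, F c z]
            exact (Equiv.sum_comp e.symm (fun c : T => ∫⁻ z in P k c.1, F c.1 z)).symm
          rw [hsum]
          refine hC T.card (fun i => P k (e.symm i).1) (fun _ => χ.target)
            (fun i z => (e.symm i).1.out⁻¹ • χ.symm z) ?_ ?_ ?_ ?_ ?_
          · intro i
            exact hPm k _
          · intro i
            exact χ.open_target
          · intro i z hz
            exact hBt hz.1
          · intro i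
            exact hψ _
          · intro i j z hz w hw h hh he
            set c := (e.symm i).1 with hc
            set c' := (e.symm j).1 with hc'
            have hcT : c ∈ T := (e.symm i).2
            have hcT' : c' ∈ T := (e.symm j).2
            obtain ⟨hzB, hzk⟩ := hz
            obtain ⟨hwB, hwk⟩ := hw
            -- the group element
            let g : Γ := c'.out * h * c.out⁻¹
            have hgz : g • χ.symm z = χ.symm w := by
              have : c'.out • (c'.out⁻¹ • χ.symm w) = c'.out • (h • c.out⁻¹ • χ.symm z) :=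
                congrArg _ he
              rw [smul_inv_smul] at this
              rw [this]
              simp only [g, mul_smul]
            have hgc : g • c = c' := by
              have e1 : g • c = ((g * c.out : Γ) : Γ ⧸ H) := by
                conv_lhs => rw [← QuotientGroup.out_eq' c]
                rfl
              rw [e1]
              have e2 : g * c.out = c'.out * h := by
                simp only [g]
                group
              rw [e2, QuotientGroup.mk_mul_of_mem _ hh]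
              exact QuotientGroup.out_eq' c'
            have hgz' : g⁻¹ • χ.symm w = χ.symm z := by rw [← hgz, inv_smul_smul]
            have hgc' : g⁻¹ • c' = c := by rw [← hgc, inv_smul_smul]
            have key : c = c' ∧ z = w := by
              rcases lt_trichotomy (θ c z) (θ c' w) with hlt | heq | hlt
              · exfalso
                have := rk_lt (H := H) (S := S) (T := (T : Set (Γ ⧸ H))) hBt hBU hS
                  (Finset.mem_coe.2 hcT) hzB hwB hgc hgz hlt
                change R c z < R c' w at this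
                rw [hzk, hwk] at this
                exact lt_irrefl _ this
              · exact hθi c hcT c' hcT' z w heq
              · exfalso
                have := rk_lt (H := H) (S := S) (T := (T : Set (Γ ⧸ H))) hBt hBU hS
                  (Finset.mem_coe.2 hcT') hwB hzB hgc' hgz' hlt
                change R c' w < R c z at this
                rw [hzk, hwk] at this
                exact lt_irrefl _ this
            refine ⟨?_, key.2⟩
            have : e.symm i = e.symm j := Subtype.ext key.1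
            exact e.symm.injective this
      _ = _ := by
          rw [Finset.sum_const, Finset.card_range, nsmul_eq_mul]
  have htot : ∑' c, ∫⁻ z in B, F c z ≤ ((S.card + 1 : ℕ) : ℝ≥0∞) * ENNReal.ofReal C := by
    rw [ENNReal.tsum_eq_iSup_sum]
    exact iSup_le claim
  have hlt : ∑' c, ∫⁻ z in B, F c z < ⊤ :=
    htot.trans_lt (ENNReal.mul_lt_top (ENNReal.natCast_lt_top _) ENNReal.ofReal_lt_top)
  have hcount : (Function.support fun c => ∫⁻ z in B, F c z).Countable :=
    Summable.countable_support_ennreal hlt.ne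
  set K : Set (Γ ⧸ H) := Function.support fun c => ∫⁻ z in B, F c z with hK
  have hzero : ∀ c, c ∉ K → ∀ z ∈ B, F c z = 0 := by
    intro c hc z hz
    have h0 : ∫⁻ z in B, F c z = 0 := by
      by_contra h
      exact hc h
    rw [lintegral_eq_zero_iff' (hmeas c)] at h0
    have h1 : F c =ᵐ[volume.restrict B] fun _ => (0 : ℝ≥0∞) := h0
    have h2 := Measure.eqOn_open_of_ae_eq h1 hBo (hFc' c) continuousOn_const
    exact h2 hz
  refine ⟨r, hr, hBt, ?_⟩
  have hint : ∫⁻ z in B, ∑' c : Γ ⧸ H,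
      ENNReal.ofReal (‖translate n m η c.out (χ.symm z) * jac n χ.symm z ^ m‖ ^ (2 / (m : ℝ))) =
      ∫⁻ z in B, ∑' c : K, F c.1 z := by
    apply setLIntegral_congr_fun hBo.measurableSet
    intro z hz
    change ∑' c : Γ ⧸ H, ENNReal.ofReal (‖translate n m η c.out (χ.symm z) *
      jac n χ.symm z ^ m‖ ^ (2 / (m : ℝ))) = ∑' c : K, F c.1 z
    have e1 : (fun c : Γ ⧸ H => ENNReal.ofReal (‖translate n m η c.out (χ.symm z) *
        jac n χ.symm z ^ m‖ ^ (2 / (m : ℝ)))) = fun c => F c z := by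
      funext c
      rw [hft c z hz]
    rw [e1]
    symm
    refine tsum_subtype_eq_of_support_subset (f := fun c : Γ ⧸ H => F c z) (s := K) ?_
    intro c hc
    by_contra h
    exact hc (hzero c h z hz)
  rw [hint]
  have : Countable K := hcount.to_subtype
  rw [lintegral_tsum fun c : K => hmeas c.1]
  refine lt_of_le_of_lt ?_ hlt
  exact ENNReal.tsum_comp_le_tsum_of_injective Subtype.val_injective _

end Pool.Agent.Helper79.Orb
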